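import Pool.Agent.D0H42.SF.Ex
import Pool.Agent.D0H41.SG.Stm

/-!
# Project SG (helper41), module SN2: the class modulo `q` which forces `S_n`, with large prime factors
(copy of `Pool.Agent.D0H42.SF.t_SN` of helper42)
-/

set_option autoImplicit false

namespace Pool.Agent.D0H30.SG

open Polynomial Pool.Agent.D0H41.SF Pool.Agent.D0H41.SG Pool.Agent.D0H42.SF

theorem t_SN2 : S_SN2 := by
  intro n M hn
  obtain ⟨p₁, hp1, hP1⟩ := Nat.exists_infinite_primes (max n M + 1)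
  obtain ⟨p₂, hp2, hP2⟩ := Nat.exists_infinite_primes (p₁ + 1)
  obtain ⟨p₃, hp3, hP3⟩ := Nat.exists_infinite_primes (p₂ + 1)
  have hnM : n ≤ max n M := le_max_left _ _
  have hMn : M ≤ max n M := le_max_right _ _
  have f1 : Fact p₁.Prime := ⟨hP1⟩
  have f2 : Fact p₂.Prime := ⟨hP2⟩
  have f3 : Fact p₃.Prime := ⟨hP3⟩
  obtain ⟨g₁, m1, d1, c1, t1⟩ := exA p₁ n hn (by omega)
  obtain ⟨g₂, m2, d2, c2, t2⟩ := exB p₂ n hn (by omega)
  obtain ⟨g₃, m3, d3, c3, t3⟩ := exC p₃ n hn (by omega)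
  choose a0 ha1 ha2 ha3 using fun i : Fin (n - 1) =>
    crt3 p₁ p₂ p₃ hP1 hP2 hP3 (by omega) (by omega) (by omega) (g₁.coeff (i : ℕ))
      (g₂.coeff (i : ℕ)) (g₃.coeff (i : ℕ))
  refine ⟨p₁ * p₂ * p₃, ?_, ?_, a0, ?_⟩
  · exact Nat.mul_pos (Nat.mul_pos hP1.pos hP2.pos) hP3.pos
  · intro p hp hd
    rcases (Nat.Prime.dvd_mul hp).1 hd with h | h
    · rcases (Nat.Prime.dvd_mul hp).1 h with h | h
      · have := (Nat.prime_dvd_prime_iff_eq hp hP1).1 h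
        omega
      · have := (Nat.prime_dvd_prime_iff_eq hp hP2).1 h
        omega
    · have := (Nat.prime_dvd_prime_iff_eq hp hP3).1 h
      omega
  intro a ha
  have hcast : ∀ (p : ℕ), p ∣ p₁ * p₂ * p₃ → ∀ i, ((a i : ℤ) : ZMod p) = ((a0 i : ℤ) : ZMod p) := by
    intro p hp i
    rw [← sub_eq_zero, ← Int.cast_sub, ZMod.intCast_zmod_eq_zero_iff_dvd]
    exact (Int.natCast_dvd_natCast.2 hp).trans (ha i)
  have e1 := pol_map p₁ n (by omega) g₁ m1 d1 c1 a (fun i => by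
    rw [hcast p₁ ⟨p₂ * p₃, by ring⟩ i, ha1])
  have e2 := pol_map p₂ n (by omega) g₂ m2 d2 c2 a (fun i => by
    rw [hcast p₂ ⟨p₁ * p₃, by ring⟩ i, ha2])
  have e3 := pol_map p₃ n (by omega) g₃ m3 d3 c3 a (fun i => by
    rw [hcast p₃ ⟨p₁ * p₂, by ring⟩ i, ha3])
  have hm := pol_monic n (by omega) a
  have hirrZ : Irreducible (pol n a) :=
    hm.irreducible_of_irreducible_map (Int.castRingHom (ZMod p₁)) _ (by rw [e1]; exact t1)
  have hirr : Irreducible (polQ n a) :=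
    (hm.irreducible_iff_irreducible_map_fraction_map (K := ℚ)).1 hirrZ
  refine ⟨hirr, fun θ hθ => ?_⟩
  exact main_sym (pol n a) hm hirr p₂ p₃ (n - 2) (by rw [e2]; exact t2) (by rw [e3]; exact t3) θ hθ

end Pool.Agent.D0H30.SG
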